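import Mathlib

set_option autoImplicit false

namespace Pool.Agent.Results.MP_ef4983_al.Criterion

theorem reach {A : Type*} [AddCommGroup A] {p k : ℕ} (hp : p.Prime) {b d : A}
    (hb : ∀ y : A, p ^ (k + 1) • y ≠ p ^ k • b) (hd : p ^ (k + 1) • d = 0) :
    ∃ f : A →+ A, f b = d := by
  let K : AddSubgroup A := (nsmulAddMonoidHom (p ^ (k + 1))).range
  have h0 : (QuotientAddGroup.mk' K (p ^ k • b)) ≠ 0 := by
    intro h
    obtain ⟨y, hy⟩ := (QuotientAddGroup.eq_zero_iff _).1 h
    exact hb y hy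
  obtain ⟨c, hc⟩ := CharacterModule.exists_character_apply_ne_zero_of_ne_zero h0
  let χ : A →+ AddCircle (1 : ℚ) := (show (A ⧸ K) →+ AddCircle (1 : ℚ) from c).comp
    (QuotientAddGroup.mk' K)
  have h1 : ∀ x, p ^ (k + 1) • χ x = 0 := fun x => by
    rw [← map_nsmul]
    have : QuotientAddGroup.mk' K (p ^ (k + 1) • x) = 0 :=
      (QuotientAddGroup.eq_zero_iff _).2 ⟨x, rfl⟩
    show c (QuotientAddGroup.mk' K (p ^ (k + 1) • x)) = 0
    rw [this, map_zero]
  have h2 : p ^ k • χ b ≠ 0 := by rw [← map_nsmul]; exact hc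
  haveI := Fact.mk hp
  have h3 : addOrderOf (χ b) = p ^ (k + 1) := addOrderOf_eq_prime_pow h2 (h1 b)
  have hN : p ^ (k + 1) ≠ 0 := pow_ne_zero _ hp.ne_zero
  have h4 : ((AddSubgroup.zmultiples (χ b) : AddSubgroup _) : Set (AddCircle (1 : ℚ))) =
      {x | p ^ (k + 1) • x = 0} := by
    refine Set.Finite.eq_of_subset_of_encard_le (AddCircle.finite_torsion _ (Nat.pos_of_ne_zero hN)
      |>.subset ?_) ?_ ?_
    · rintro _ ⟨n, rfl⟩
      simp only [Set.mem_setOf_eq]
      rw [smul_comm, h1, smul_zero]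
    · rintro _ ⟨n, rfl⟩
      simp only [Set.mem_setOf_eq]
      rw [smul_comm, h1, smul_zero]
    · refine (AddCircle.card_torsion_le_of_isSMulRegular _ _ hN
        (.of_right_eq_zero_of_smul fun _ => by simp [hp.ne_zero])).trans ?_
      rw [← h3, ← Nat.card_zmultiples]
      haveI : Finite (AddSubgroup.zmultiples (χ b)) :=
        Nat.finite_of_card_ne_zero (by rw [Nat.card_zmultiples, h3]; exact hN)
      rw [Set.encard, ENat.card_eq_coe_natCard]
      rfl
  let Z := AddSubgroup.zmultiples (χ b)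
  have h5 : ∀ x, χ x ∈ Z := fun x => by
    have : χ x ∈ {x | p ^ (k + 1) • x = 0} := h1 x
    rw [← h4] at this
    exact this
  let u : Z := ⟨χ b, h5 b⟩
  have hu : ∀ z : Z, z ∈ AddSubgroup.zmultiples u := by
    rintro ⟨_, n, rfl⟩
    exact ⟨n, rfl⟩
  have hd' : addOrderOf d ∣ addOrderOf u := by
    rw [← AddSubgroup.addOrderOf_coe, show (u : AddCircle (1 : ℚ)) = χ b from rfl, h3]
    exact addOrderOf_dvd_of_nsmul_eq_zero hd
  exact ⟨(addMonoidHomOfForallMemZMultiples hu hd').comp (χ.codRestrict Z h5),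
    addMonoidHomOfForallMemZMultiples_apply_gen hu hd'⟩

theorem orb {A : Type*} [AddCommGroup A] {a : A} (h : (Set.range fun f : A →+ A => f a).Finite)
    (H : ∀ M : AddSubgroup A, Finite M → (∀ f : A →+ A, ∀ x ∈ M, f x ∈ M) → M = ⊥) : a = 0 := by
  let M : AddSubgroup A := (AddMonoidHom.eval a : (A →+ A) →+ A).range
  have := H M h.to_subtype (by
    rintro f _ ⟨g, rfl⟩
    exact ⟨f.comp g, rfl⟩)
  have h2 : a ∈ M := ⟨AddMonoidHom.id A, rfl⟩
  rwa [this] at h2

theorem one_two {A : Type*} [AddCommGroup A] :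
    (∀ s : Finset (A × A), (∀ h ∈ s, h ≠ 0) → ∃ φ : (A × A) →+ A, ∀ h ∈ s, φ h ≠ 0) ↔
    (∀ M : AddSubgroup A, Finite M → (∀ f : A →+ A, ∀ x ∈ M, f x ∈ M) → M = ⊥) := by
  classical
  constructor
  · intro H M hM hf
    by_contra hne
    haveI : Nontrivial M := (AddSubgroup.nontrivial_iff_ne_bot M).2 hne
    haveI := Fintype.ofFinite M
    obtain ⟨φ, hφ⟩ := H ((Finset.univ.image fun x : M × M => ((x.1 : A), (x.2 : A))).erase 0)
      (fun h hh => Finset.ne_of_mem_erase hh)
    have hm : ∀ x : M × M, φ (x.1, x.2) ∈ M := fun x => by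
      have : φ (x.1, x.2) = φ.comp (AddMonoidHom.inl A A) x.1 + φ.comp (AddMonoidHom.inr A A) x.2 := by
        simp [← map_add]
      rw [this]
      exact add_mem (hf _ _ x.1.2) (hf _ _ x.2.2)
    obtain ⟨x, y, hxy, he⟩ := Fintype.exists_ne_map_eq_of_card_lt
      (fun x : M × M => (⟨_, hm x⟩ : M)) (by
        rw [Fintype.card_prod]
        have := Fintype.one_lt_card (α := M)
        nlinarith)
    refine hφ (((x - y).1 : A), ((x - y).2 : A)) (Finset.mem_erase.2 ⟨fun h => hxy ?_,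
      Finset.mem_image.2 ⟨x - y, Finset.mem_univ _, rfl⟩⟩) ?_
    · rw [← sub_eq_zero]
      simp only [Prod.mk_eq_zero, ZeroMemClass.coe_eq_zero] at h
      exact Prod.ext h.1 h.2
    · have : (((x - y).1 : A), ((x - y).2 : A)) = ((x.1 : A), (x.2 : A)) - ((y.1 : A), (y.2 : A)) := by
        simp
      rw [this, map_sub, sub_eq_zero]
      exact congrArg Subtype.val he
  · intro H s hs
    by_contra hc
    push Not at hc
    obtain ⟨h, hh, hfi⟩ := AddSubgroup.exists_finiteIndex_of_leftCoset_cover (s := s)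
      (H := fun h : A × A => (AddMonoidHom.eval h : ((A × A) →+ A) →+ A).ker)
      (g := fun _ => 0) (by
        simp only [Set.eq_univ_iff_forall, Set.mem_iUnion]
        intro φ
        obtain ⟨h, hh, h0⟩ := hc φ
        exact ⟨h, hh, φ, h0, zero_add φ⟩)
    have hf : (Set.range fun φ : (A × A) →+ A => φ h).Finite := by
      have : Finite (AddMonoidHom.eval h : ((A × A) →+ A) →+ A).range := by
        apply Nat.finite_of_card_ne_zero
        rw [← AddSubgroup.index_ker]
        exact hfi.index_ne_zero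
      exact Set.toFinite ((AddMonoidHom.eval h : ((A × A) →+ A) →+ A).range : Set A)
    apply hs h hh
    refine Prod.ext (orb (hf.subset ?_) H) (orb (hf.subset ?_) H)
    · rintro _ ⟨f, rfl⟩
      exact ⟨f.comp (AddMonoidHom.fst A A), rfl⟩
    · rintro _ ⟨f, rfl⟩
      exact ⟨f.comp (AddMonoidHom.snd A A), rfl⟩

theorem result (A : Type*) [AddCommGroup A] :
    List.TFAE [
      ∀ s : Finset (A × A), (∀ h ∈ s, h ≠ 0) → ∃ φ : (A × A) →+ A, ∀ h ∈ s, φ h ≠ 0,
      ∀ M : AddSubgroup A, Finite M → (∀ f : A →+ A, ∀ x ∈ M, f x ∈ M) → M = ⊥,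
      ∀ p : ℕ, p.Prime →
        (∀ k : ℕ, {x : A | p • x = 0 ∧ ∃ y : A, x = p ^ k • y} = {0} ∨
          {x : A | p • x = 0 ∧ ∃ y : A, x = p ^ k • y}.Infinite) ∧
        ∀ a : A, a ≠ 0 → p • a = 0 → (∀ k : ℕ, ∃ y : A, a = p ^ k • y) →
          (Set.range fun f : A →+ A => f a).Infinite] := by
  classical
  tfae_have 1 ↔ 2 := one_two
  tfae_have 2 → 3 := by
    intro H p hp
    refine ⟨fun k => ?_, fun a ha _ _ hf => ha (orb hf H)⟩
    rw [or_iff_not_imp_right, Set.not_infinite]
    intro hf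
    let M : AddSubgroup A := (nsmulAddMonoidHom p).ker ⊓ (nsmulAddMonoidHom (p ^ k)).range
    have hM : (M : Set A) = {x : A | p • x = 0 ∧ ∃ y : A, x = p ^ k • y} := by
      ext x
      simp [M, eq_comm]
    have := H M (by rw [← hM] at hf; exact hf.to_subtype) (by
      rintro f _ ⟨h1, y, rfl⟩
      refine ⟨?_, f y, by simp⟩
      have h2 : p • (p ^ k • y) = 0 := h1
      show p • f (p ^ k • y) = 0
      rw [← map_nsmul, h2, map_zero])
    rw [← hM, this]
    rfl
  tfae_have 3 → 2 := by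
    intro H M hM hf
    by_contra hne
    haveI : Nontrivial M := (AddSubgroup.nontrivial_iff_ne_bot M).2 hne
    obtain ⟨p, hp, hd⟩ := Nat.exists_prime_and_dvd (Finite.one_lt_card (α := M)).ne'
    haveI := Fact.mk hp
    obtain ⟨a, ha⟩ := exists_prime_addOrderOf_dvd_card' p hd
    have ha0 : (a : A) ≠ 0 := by
      intro h
      rw [show a = 0 from Subtype.ext h, addOrderOf_zero] at ha
      exact hp.one_lt.ne ha
    have hpa : p • (a : A) = 0 := by
      rw [← ha, ← AddSubgroup.coe_nsmul, addOrderOf_nsmul_eq_zero]; rfl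
    have hfin : (Set.range fun f : A →+ A => f a).Finite :=
      (Set.toFinite (M : Set A)).subset (by rintro _ ⟨f, rfl⟩; exact hf f _ a.2)
    by_cases hh : ∀ k : ℕ, ∃ y : A, (a : A) = p ^ k • y
    · exact (H p hp).2 a ha0 hpa hh hfin
    · push Not at hh
      have h0 : Nat.find hh ≠ 0 := by
        intro h
        have := Nat.find_spec hh a
        simp [h] at this
      obtain ⟨k, hk⟩ := Nat.exists_eq_succ_of_ne_zero h0
      have h1 := Nat.find_spec hh
      have h2 := Nat.find_min hh (show k < Nat.find hh by omega)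
      push Not at h2
      obtain ⟨b, hb⟩ := h2
      rw [hk] at h1
      rcases (H p hp).1 k with h | h
      · have : (a : A) ∈ {x : A | p • x = 0 ∧ ∃ y : A, x = p ^ k • y} := ⟨hpa, b, hb⟩
        rw [h] at this
        exact ha0 this
      · refine h (hfin.subset ?_)
        rintro _ ⟨h3, d, rfl⟩
        obtain ⟨f, hf⟩ := reach (k := k) (b := b) (d := d) hp
          (fun y hy => h1 y (hb.trans hy.symm)) (by rw [pow_succ', mul_smul, h3])
        exact ⟨f, by simp only [hb, map_nsmul, hf]⟩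
  tfae_finish

end Pool.Agent.Results.MP_ef4983_al.Criterion
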